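import Pool.Agent.Lib.MP_c4b6f2_al.Defs
import Pool.Agent.Lib.MP_c4b6f2_al.Main

set_option autoImplicit false

open Pool.Agent.Lib.MP_c4b6f2_al

/-- The class of O*-groups does not have the weak betweenness property: there are O*-groups
`G₁ < G₂`, with `G₁` not maximal in `G₂`, such that no subgroup strictly between them is an
O*-group. -/
theorem Pool.Agent.Results.MP_c4b6f2_al.OStarNoWB.result : ¬ WB OStar :=
  not_wb_ostar
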